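import Pool.Agent.W544.K3.Defs

/-!
# K3-CLOS (helper52)
-/

set_option autoImplicit false

open Module Finset

namespace Pool.Agent.W52.K3.Clos

open Pool.Agent.W544.K3

section

variable {U : Type} [AddCommGroup U] [Module ℝ U]

/-- admissible subspaces -/
def Adm (x : End ℝ U) (h : Submodule ℝ (End ℝ U)) (L : Submodule ℝ (U × U)) :
    Set (Submodule ℝ (U × U)) :=
  {M | JStable M ∧ L ≤ M ∧
    ∀ α : ℝ, α ≤ 0 → ∀ y ∈ h, Hom x α y → ∀ p ∈ M, ((y p.1, y p.2) : U × U) ∈ M}

theorem adm_sInf (x : End ℝ U) (h : Submodule ℝ (End ℝ U)) (L : Submodule ℝ (U × U)) :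
    sInf (Adm x h L) ∈ Adm x h L := by
  refine ⟨?_, ?_, ?_⟩
  · intro p hp
    rw [Submodule.mem_sInf] at hp ⊢
    exact fun M hM => hM.1 p (hp M hM)
  · exact le_sInf fun M hM => hM.2.1
  · intro α hα y hy hxy p hp
    rw [Submodule.mem_sInf] at hp ⊢
    exact fun M hM => hM.2.2 α hα y hy hxy p (hp M hM)

/-- vectors which stay in `M0` under `h` -/
def Nn (h : Submodule ℝ (End ℝ U)) (M0 : Submodule ℝ (U × U)) : Submodule ℝ (U × U) where
  carrier := {p | p ∈ M0 ∧ ∀ y ∈ h, ((y p.1, y p.2) : U × U) ∈ M0}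
  zero_mem' := by
    refine ⟨M0.zero_mem, fun y _ => ?_⟩
    simp only [Prod.fst_zero, Prod.snd_zero, map_zero]
    exact M0.zero_mem
  add_mem' := by
    rintro p q ⟨hp1, hp2⟩ ⟨hq1, hq2⟩
    refine ⟨M0.add_mem hp1 hq1, fun y hy => ?_⟩
    have := M0.add_mem (hp2 y hy) (hq2 y hy)
    simpa using this
  smul_mem' := by
    rintro c p ⟨hp1, hp2⟩
    refine ⟨M0.smul_mem c hp1, fun y hy => ?_⟩
    have := M0.smul_mem c (hp2 y hy)
    simpa using this

/-- operators which send `p` to `M0` -/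
def Qsub (M0 : Submodule ℝ (U × U)) (p : U × U) : Submodule ℝ (End ℝ U) where
  carrier := {y | ((y p.1, y p.2) : U × U) ∈ M0}
  zero_mem' := by
    change (((0 : End ℝ U) p.1, (0 : End ℝ U) p.2) : U × U) ∈ M0
    exact M0.zero_mem
  add_mem' := by
    intro y z hy hz
    have := M0.add_mem hy hz
    simpa using this
  smul_mem' := by
    intro c y hy
    have := M0.smul_mem c hy
    simpa using this

end

theorem clos (hG : S_grade) : S_clos := by
  intro U _ _ _ x h hx hxh hlie hirr L M hL hM hLM hL0 hpos hneg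
  obtain ⟨M0, hM0⟩ : ∃ M0, M0 = sInf (Adm x h L) := ⟨_, rfl⟩
  have hadm : M0 ∈ Adm x h L := by rw [hM0]; exact adm_sInf x h L
  obtain ⟨a1, a2, a3⟩ := hadm
  have hM0M : M0 ≤ M := by
    rw [hM0]
    exact sInf_le ⟨hM, hLM, hneg⟩
  have hN : Nn h M0 ∈ Adm x h L := by
    refine ⟨?_, ?_, ?_⟩
    · rintro p ⟨hp1, hp2⟩
      refine ⟨a1 p hp1, fun y hy => ?_⟩
      have := a1 _ (hp2 y hy)
      simpa using this
    · intro p hp
      refine ⟨a2 hp, fun y hy => ?_⟩
      have hle : h ≤ Qsub M0 p := by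
        apply hG U x h (Qsub M0 p) hx (fun y hy => hlie x hxh y hy)
        intro α y hy hxy
        rcases lt_or_ge 0 α with hα | hα
        · obtain ⟨h1, h2⟩ := hpos α hα y hy hxy p hp
          change ((y p.1, y p.2) : U × U) ∈ M0
          rw [h1, h2]
          exact M0.zero_mem
        · exact a3 α hα y hy hxy p (a2 hp)
      exact hle hy
    · rintro α hα z hz hxz p ⟨hp1, hp2⟩
      refine ⟨hp2 z hz, fun y hy => ?_⟩
      have h1 : ((z (y p.1), z (y p.2)) : U × U) ∈ M0 := a3 α hα z hz hxz _ (hp2 y hy)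
      have h2 := hp2 _ (hlie y hy z hz)
      have h3 := M0.add_mem h1 h2
      have h4 : ((z (y p.1), z (y p.2)) : U × U) + ((y * z - z * y) p.1, (y * z - z * y) p.2) =
          (y (z p.1), y (z p.2)) := by
        ext
        · simp
        · simp
      rw [h4] at h3
      exact h3
  have hM0N : M0 ≤ Nn h M0 := by
    conv_lhs => rw [hM0]
    exact sInf_le hN
  have hst : OpStable (h : Set (End ℝ U)) M0 := fun y hy p hp => (hM0N hp).2 y hy
  rcases hirr M0 a1 hst with h0 | h0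
  · exfalso
    apply hL0
    rw [h0] at a2
    exact le_bot_iff.1 a2
  · rw [h0] at hM0M
    exact top_le_iff.1 hM0M

end Pool.Agent.W52.K3.Clos
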