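import Pool.Agent.W544.K3.Defs2
import Pool.Agent.W22.K3.LogQ

/-! Complexification of real multilinear forms. -/

open Module Finset

namespace Pool.Agent.W52.K3.CxLib

open Pool.Agent.W544.K3 Pool.Agent.W22.K3

/-- the complex vector of a real vector -/
def toC {n : ℕ} (v : Fin n → ℝ) : Fin n → ℂ := fun i => ((v i : ℝ) : ℂ)

theorem cx_toC {n : ℕ} (x : End ℝ (Fin n → ℝ)) (w : Fin n → ℝ) : cx x (toC w) = toC (x w) :=
  cx_ofReal x w

theorem cx_im {n : ℕ} (x : End ℝ (Fin n → ℝ)) (w : Fin n → ℂ) :
    (fun i => (cx x w i).im) = x (fun i => (w i).im) := by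
  funext i
  rw [cx_apply, real_apply]
  simp

theorem cx_add_I {n : ℕ} (x : End ℝ (Fin n → ℝ)) (u v : Fin n → ℝ) :
    cx x (toC u + Complex.I • toC v) = toC (x u) + Complex.I • toC (x v) := by
  rw [map_add, map_smul, cx_toC, cx_toC]

/-- multilinear maps which agree on real vectors are equal -/
theorem ext_real {n k : ℕ} (s s' : MultilinearMap ℂ (fun _ : Fin k => (Fin n → ℂ)) ℂ)
    (h : ∀ v : Fin k → Fin n → ℝ, s (fun j => toC (v j)) = s' (fun j => toC (v j))) : s = s' := by
  apply Module.Basis.ext_multilinear (fun _ : Fin k => Pi.basisFun ℂ (Fin n))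
  intro I
  have h1 : (fun j => (Pi.basisFun ℂ (Fin n)) (I j)) =
      fun j => toC (Pi.single (I j) (1 : ℝ)) := by
    funext j i
    simp only [Pi.basisFun_apply, toC, Pi.single_apply]
    split_ifs <;> simp
  rw [h1]
  exact h _

/-- the complexification of a real multilinear form -/
noncomputable def mC {n k : ℕ} (t : MultilinearMap ℝ (fun _ : Fin k => (Fin n → ℝ)) ℝ) :
    MultilinearMap ℂ (fun _ : Fin k => (Fin n → ℂ)) ℂ :=
  ∑ I : Fin k → Fin n, ((t fun j => Pi.single (I j) (1 : ℝ) : ℝ) : ℂ) •
    (MultilinearMap.mkPiAlgebra ℂ (Fin k) ℂ).compLinearMap (fun j => LinearMap.proj (I j))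

theorem mC_apply {n k : ℕ} (t : MultilinearMap ℝ (fun _ : Fin k => (Fin n → ℝ)) ℝ)
    (v : Fin k → Fin n → ℂ) :
    mC t v = ∑ I : Fin k → Fin n, ((t fun j => Pi.single (I j) (1 : ℝ) : ℝ) : ℂ) *
      ∏ j, v j (I j) := by
  simp [mC]

theorem mC_toC {n k : ℕ} (t : MultilinearMap ℝ (fun _ : Fin k => (Fin n → ℝ)) ℝ)
    (v : Fin k → Fin n → ℝ) : mC t (fun j => toC (v j)) = ((t v : ℝ) : ℂ) := by
  rw [mC_apply]
  have h1 : t v = ∑ I : Fin k → Fin n, (∏ j, v j (I j)) * t fun j => Pi.single (I j) (1 : ℝ) := by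
    conv_lhs => rw [show v = fun j => ∑ i, v j i • (Pi.single i (1 : ℝ) : Fin n → ℝ) from by
      funext j i
      simp [Finset.sum_apply, Pi.single_apply]]
    rw [MultilinearMap.map_sum]
    refine Finset.sum_congr rfl fun I _ => ?_
    rw [MultilinearMap.map_smul_univ, smul_eq_mul]
  rw [h1]
  push_cast
  refine Finset.sum_congr rfl fun I _ => ?_
  simp only [toC]
  rw [mul_comm]

/-- the sum of the derivations, as a multilinear map -/
noncomputable def der {W : Type} [AddCommGroup W] [Module ℂ W] {k : ℕ} (G : End ℂ W)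
    (T : MultilinearMap ℂ (fun _ : Fin k => W) ℂ) : MultilinearMap ℂ (fun _ : Fin k => W) ℂ :=
  ∑ j, T.compLinearMap (fun i => if i = j then G else LinearMap.id)

theorem der_apply {W : Type} [AddCommGroup W] [Module ℂ W] {k : ℕ} (G : End ℂ W)
    (T : MultilinearMap ℂ (fun _ : Fin k => W) ℂ) (v : Fin k → W) :
    der G T v = ∑ j, T (Function.update v j (G (v j))) := by
  unfold der
  rw [MultilinearMap.sum_apply]
  refine Finset.sum_congr rfl fun j _ => ?_
  rw [MultilinearMap.compLinearMap_apply]
  congr 1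
  funext i
  by_cases h : i = j
  · subst h
    simp
  · simp [h]

theorem toC_update {n k : ℕ} (v : Fin k → Fin n → ℝ) (j : Fin k) (w : Fin n → ℝ) :
    Function.update (fun i => toC (v i)) j (toC w) = fun i => toC (Function.update v j w i) := by
  funext i
  by_cases h : i = j
  · subst h
    simp
  · simp [h]

theorem kills_iff {n k : ℕ} (x : End ℝ (Fin n → ℝ))
    (t : MultilinearMap ℝ (fun _ : Fin k => (Fin n → ℝ)) ℝ) :
    Kills x t ↔ der (cx x) (mC t) = 0 := by
  have key : ∀ v : Fin k → Fin n → ℝ, der (cx x) (mC t) (fun j => toC (v j)) =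
      ((∑ j, t (Function.update v j (x (v j))) : ℝ) : ℂ) := by
    intro v
    rw [der_apply]
    push_cast
    refine Finset.sum_congr rfl fun j _ => ?_
    rw [cx_toC, toC_update, mC_toC]
  constructor
  · intro h
    apply ext_real
    intro v
    rw [key, h v]
    simp
  · intro h v
    have := key v
    rw [h] at this
    have h2 : ((∑ j, t (Function.update v j (x (v j))) : ℝ) : ℂ) = 0 := this.symm
    exact_mod_cast h2

theorem inv_iff {n k : ℕ} (g : End ℝ (Fin n → ℝ))
    (t : MultilinearMap ℝ (fun _ : Fin k => (Fin n → ℝ)) ℝ)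
    (h : ∀ v, t (fun j => g (v j)) = t v) (v : Fin k → Fin n → ℂ) :
    mC t (fun j => cx g (v j)) = mC t v := by
  have h1 : (mC t).compLinearMap (fun _ => cx g) = mC t := by
    apply ext_real
    intro v
    rw [MultilinearMap.compLinearMap_apply]
    simp only [cx_toC]
    rw [mC_toC (v := fun j => g (v j)), mC_toC, h]
  have := congrArg (fun s => s v) h1
  exact this

/-- a multilinear map vanishing on a spanning set vanishes -/
theorem zero_of_span {W : Type} [AddCommGroup W] [Module ℂ W] {k : ℕ}
    (s : MultilinearMap ℂ (fun _ : Fin k => W) ℂ) (S : Set W) (hS : Submodule.span ℂ S = ⊤)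
    (h : ∀ v : Fin k → W, (∀ j, v j ∈ S) → s v = 0) : s = 0 := by
  classical
  have key : ∀ A : Finset (Fin k), ∀ v : Fin k → W, (∀ j, j ∉ A → v j ∈ S) → s v = 0 := by
    intro A
    induction A using Finset.induction_on with
    | empty => intro v hv; exact h v fun j => hv j (by simp)
    | insert a A ha ih =>
      intro v hv
      have h1 : ∀ w ∈ Submodule.span ℂ S, s (Function.update v a w) = 0 := by
        intro w hw
        induction hw using Submodule.span_induction with
        | mem w hw =>
          apply ih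
          intro j hj
          by_cases hja : j = a
          · subst hja
            simpa using hw
          · rw [Function.update_of_ne hja]
            exact hv j (by rw [Finset.mem_insert]; tauto)
        | zero => exact s.map_update_zero v a
        | add x y _ _ hx hy => rw [MultilinearMap.map_update_add, hx, hy, add_zero]
        | smul c x _ hx => rw [MultilinearMap.map_update_smul, hx, smul_zero]
      have h2 := h1 (v a) (by rw [hS]; trivial)
      rwa [Function.update_eq_self] at h2
  ext v
  exact key univ v fun j hj => absurd (mem_univ j) hj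

theorem span_gen {n : ℕ} (G : End ℂ (Fin n → ℂ)) :
    Submodule.span ℂ {v | ∃ z, v ∈ End.maxGenEigenspace G z} = ⊤ := by
  rw [eq_top_iff, ← Module.End.iSup_maxGenEigenspace_eq_top G]
  refine iSup_le fun z v hv => Submodule.subset_span ⟨z, hv⟩

/-- `x` acts on each generalised eigenspace of `G` as a real scalar `f z`; then it kills a form
as soon as the form vanishes on generalised eigenvectors with non-zero total scalar -/
theorem kills_of {n k : ℕ} (x : End ℝ (Fin n → ℝ)) (G : End ℂ (Fin n → ℂ)) (f : ℂ → ℝ)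
    (hx : ∀ z : ℂ, ∀ v ∈ End.maxGenEigenspace G z, cx x v = ((f z : ℝ) : ℂ) • v)
    (t : MultilinearMap ℝ (fun _ : Fin k => (Fin n → ℝ)) ℝ)
    (h : ∀ (z : Fin k → ℂ) (v : Fin k → Fin n → ℂ), (∀ j, v j ∈ End.maxGenEigenspace G (z j)) →
      ∑ j, f (z j) ≠ 0 → mC t v = 0) : Kills x t := by
  rw [kills_iff]
  apply zero_of_span _ _ (span_gen G)
  intro v hv
  choose z hz using hv
  rw [der_apply]
  have h1 : ∀ j, mC t (Function.update v j (cx x (v j))) = ((f (z j) : ℝ) : ℂ) * mC t v := by
    intro j
    rw [hx (z j) (v j) (hz j), MultilinearMap.map_update_smul, Function.update_eq_self,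
      smul_eq_mul]
  simp only [h1]
  rw [← Finset.sum_mul]
  by_cases h0 : ∑ j, f (z j) = 0
  · have : (∑ j, ((f (z j) : ℝ) : ℂ)) = 0 := by exact_mod_cast h0
    rw [this, zero_mul]
  · rw [h z v hz h0, mul_zero]

/-- splitting into real and imaginary parts -/
theorem re_im {n : ℕ} {a b c d : Fin n → ℝ}
    (h : toC a + Complex.I • toC b = toC c + Complex.I • toC d) : a = c ∧ b = d := by
  constructor
  · funext i
    have := congrArg Complex.re (congrFun h i)
    simpa [toC] using this
  · funext i
    have := congrArg Complex.im (congrFun h i)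
    simpa [toC] using this

theorem decomp {n : ℕ} (w : Fin n → ℂ) :
    w = toC (fun i => (w i).re) + Complex.I • toC (fun i => (w i).im) := by
  funext i
  simp only [toC, Pi.add_apply, Pi.smul_apply, smul_eq_mul]
  rw [mul_comm]
  exact (Complex.re_add_im (w i)).symm

theorem toC_ne_zero {n : ℕ} {u v : Fin n → ℝ} (h : u ≠ 0 ∨ v ≠ 0) :
    toC u + Complex.I • toC v ≠ 0 := by
  intro h0
  have h1 : toC u + Complex.I • toC v = toC (0 : Fin n → ℝ) + Complex.I • toC (0 : Fin n → ℝ) := by
    rw [h0]
    funext i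
    simp [toC]
  obtain ⟨hu, hv⟩ := re_im h1
  rcases h with h | h
  · exact h hu
  · exact h hv

end Pool.Agent.W52.K3.CxLib
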