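import Pool.Agent.W52.K3.CxLib

open Module Finset

namespace Pool.Agent.W52.K3.Log2

open Pool.Agent.W544.K3 Pool.Agent.W22.K3 Pool.Agent.W52.K3.CxLib

theorem eigen_mem {n : ℕ} (G : End ℂ (Fin n → ℂ)) (z : ℂ) (w : Fin n → ℂ) (h : G w = z • w) :
    w ∈ End.maxGenEigenspace G z := by
  rw [Module.End.mem_maxGenEigenspace]
  refine ⟨1, ?_⟩
  rw [pow_one, LinearMap.sub_apply, h]
  simp

/-- the complex eigenvector -/
theorem cx_eig {n : ℕ} (g : End ℝ (Fin n → ℝ)) (α β : ℝ) (u v : Fin n → ℝ)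
    (hu : g u = α • u - β • v) (hv : g v = β • u + α • v) :
    cx g (toC u + Complex.I • toC v) = (⟨α, β⟩ : ℂ) • (toC u + Complex.I • toC v) := by
  rw [cx_add_I, hu, hv]
  funext i
  simp only [toC, Pi.add_apply, Pi.sub_apply, Pi.smul_apply, smul_eq_mul]
  apply Complex.ext
  · (simp) <;> ring
  · (simp) <;> ring

theorem real_smul_split {n : ℕ} (x : End ℝ (Fin n → ℝ)) (c : ℝ) (u v : Fin n → ℝ)
    (h : cx x (toC u + Complex.I • toC v) = ((c : ℝ) : ℂ) • (toC u + Complex.I • toC v)) :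
    x u = c • u ∧ x v = c • v := by
  rw [cx_add_I] at h
  apply re_im
  rw [h]
  funext i
  simp only [toC, Pi.add_apply, Pi.smul_apply, smul_eq_mul]
  push_cast
  ring

theorem log2 : S_logQ → S_logT → S_log2 := by
  intro hQ hT n g
  obtain ⟨x, hdiag, hstab, hact⟩ := hQ n g
  refine ⟨x, hdiag, ?_, ?_, hstab⟩
  · intro k t ht
    apply kills_of x (cx (g : End ℝ (Fin n → ℝ))) (fun z => Real.log ‖z‖) hact t
    intro z v hv hne
    apply hT (Fin n → ℂ) (cx (g : End ℝ (Fin n → ℝ))) k (mC t) _ z v hv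
    · intro hprod
      apply hne
      have hz : ∀ j, z j ≠ 0 := by
        intro j hj
        have : ∏ j, z j = 0 := Finset.prod_eq_zero (mem_univ j) hj
        rw [this] at hprod
        exact zero_ne_one hprod
      show ∑ j, Real.log ‖z j‖ = 0
      rw [← Real.log_prod (fun j _ => norm_ne_zero_iff.2 (hz j)), ← norm_prod, hprod, norm_one,
        Real.log_one]
    · intro v
      exact inv_iff (g : End ℝ (Fin n → ℝ)) t ht v
  · intro α β u v hne hu hv
    have h1 := cx_eig (g : End ℝ (Fin n → ℝ)) α β u v hu hv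
    have h2 := hact (⟨α, β⟩ : ℂ) _ (eigen_mem _ _ _ h1)
    obtain ⟨h3, h4⟩ := real_smul_split x _ u v h2
    have hn : ‖(⟨α, β⟩ : ℂ)‖ ^ 2 = α ^ 2 + β ^ 2 := by
      rw [← Complex.normSq_eq_norm_sq, Complex.normSq_mk]
      ring
    have hpos : 0 < α ^ 2 + β ^ 2 := by
      by_contra hc
      have ha : α = 0 := by nlinarith [sq_nonneg α, sq_nonneg β]
      have hb : β = 0 := by nlinarith [sq_nonneg α, sq_nonneg β]
      subst ha
      subst hb
      rw [zero_smul, zero_smul, sub_zero] at hu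
      rw [zero_smul, zero_smul, add_zero] at hv
      rcases hne with h | h
      · exact h ((LinearEquiv.map_eq_zero_iff g).1 hu)
      · exact h ((LinearEquiv.map_eq_zero_iff g).1 hv)
    have hlog : Real.log ‖(⟨α, β⟩ : ℂ)‖ = Real.log (α ^ 2 + β ^ 2) / 2 := by
      rw [← hn, Real.log_pow]
      push_cast
      ring
    rw [hlog] at h3 h4
    exact ⟨h3, h4, hpos⟩

end Pool.Agent.W52.K3.Log2
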