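import Pool.Agent.W544.K3.Defs

/-!
# K3-LOGT (helper52)
-/

set_option autoImplicit false

open Module Finset

namespace Pool.Agent.W52.K3.LogT

open Pool.Agent.W544.K3

theorem claim {W : Type} [AddCommGroup W] [Module ℂ W] (g : End ℂ W) (k : ℕ)
    (t : MultilinearMap ℂ (fun _ : Fin k => W) ℂ) (ht : ∀ v, t (fun j => g (v j)) = t v)
    (z : Fin k → ℂ) (hz : ∏ j, z j ≠ 1) :
    ∀ (N : ℕ) (d : Fin k → ℕ), ∑ j, d j = N → ∀ v : Fin k → W,
      (∀ j, ((g - z j • (1 : End ℂ W)) ^ d j) (v j) = 0) → t v = 0 := by
  classical
  intro N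
  induction N using Nat.strong_induction_on with
  | _ N ih =>
    intro d hd v hv
    have h1 : (fun j => g (v j)) =
        (fun j => z j • v j) + fun j => (g - z j • (1 : End ℂ W)) (v j) := by
      funext j
      simp
    have h2 := ht v
    rw [h1, MultilinearMap.map_add_univ] at h2
    have h3 : ∀ s ∈ (univ : Finset (Finset (Fin k))), s ≠ univ →
        t (s.piecewise (fun j => z j • v j) fun j => (g - z j • (1 : End ℂ W)) (v j)) = 0 := by
      intro s _ hs
      obtain ⟨j0, hj0⟩ : ∃ j0, j0 ∉ s := by
        by_contra hc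
        push Not at hc
        exact hs (Finset.eq_univ_iff_forall.2 hc)
      rcases Nat.eq_zero_or_pos (d j0) with h0 | h0
      · have hv0 := hv j0
        rw [h0, pow_zero] at hv0
        have hv0' : v j0 = 0 := hv0
        apply MultilinearMap.map_coord_zero t j0
        rw [Finset.piecewise_eq_of_notMem _ _ _ hj0, hv0', map_zero]
      · refine ih (∑ j, (if j ∈ s then d j else d j - 1)) ?_ _ rfl _ ?_
        · rw [← hd]
          refine Finset.sum_lt_sum (fun j _ => ?_) ⟨j0, mem_univ _, ?_⟩
          · split_ifs <;> omega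
          · rw [if_neg hj0]; omega
        · intro j
          by_cases hj : j ∈ s
          · rw [if_pos hj, Finset.piecewise_eq_of_mem _ _ _ hj, map_smul, hv j, smul_zero]
          · rw [if_neg hj, Finset.piecewise_eq_of_notMem _ _ _ hj]
            rcases Nat.eq_zero_or_pos (d j) with h4 | h4
            · have hv0 := hv j
              rw [h4, pow_zero] at hv0
              have hv0' : v j = 0 := hv0
              rw [hv0', map_zero, map_zero]
            · rw [← Module.End.mul_apply, ← pow_succ, Nat.sub_add_cancel h4]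
              exact hv j
    rw [Finset.sum_eq_single univ h3 (fun h => absurd (mem_univ _) h)] at h2
    rw [Finset.piecewise_univ, MultilinearMap.map_smul_univ] at h2
    have h5 : (∏ j, z j - 1) * t v = 0 := by
      rw [sub_mul, one_mul, sub_eq_zero]
      exact h2
    rcases mul_eq_zero.1 h5 with h6 | h6
    · exact absurd (sub_eq_zero.1 h6) hz
    · exact h6

theorem logT : S_logT := by
  intro W _ _ g k t ht z v hv hz
  have h : ∀ j, ∃ d : ℕ, ((g - z j • (1 : End ℂ W)) ^ d) (v j) = 0 := fun j =>
    (Module.End.mem_maxGenEigenspace g (z j) (v j)).1 (hv j)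
  choose d hd using h
  exact claim g k t ht z hz _ d rfl v hd

end Pool.Agent.W52.K3.LogT
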