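import Pool.Agent.W52.K3.Log2

open Module Finset

namespace Pool.Agent.W52.K3.ReG

open Pool.Agent.W544.K3 Pool.Agent.W22.K3 Pool.Agent.W52.K3.CxLib Pool.Agent.W52.K3.Log2
open Polynomial

/-- as in (LOGQ), with the real part -/
theorem reQ (n : ℕ) (g : End ℝ (Fin n → ℝ)) :
    ∃ x : End ℝ (Fin n → ℝ), Diag x ∧
    (∀ M : Submodule ℝ (Fin n → ℝ), (∀ v ∈ M, g v ∈ M) → ∀ v ∈ M, x v ∈ M) ∧
    ∀ z : ℂ, ∀ v ∈ End.maxGenEigenspace (cx g) z, cx x v = ((z.re : ℝ) : ℂ) • v := by
  set G := cx g with hG
  classical
  set Z := (Module.End.finite_hasEigenvalue G).toFinset with hZ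
  set S : Finset ℂ := Z ∪ Z.image (starRingEnd ℂ) with hS
  have hSc : ∀ z ∈ S, (starRingEnd ℂ) z ∈ S := by
    intro z hz
    rw [hS, mem_union, mem_image] at hz ⊢
    rcases hz with hz | ⟨w, hw, rfl⟩
    · exact Or.inr ⟨z, hz, rfl⟩
    · left
      simpa using hw
  obtain ⟨p, hp⟩ := exists_real_poly S hSc n (fun z => z.re) (by intro z; simp)
  set x : End ℝ (Fin n → ℝ) := aeval g p with hx
  have hact : ∀ z : ℂ, ∀ v ∈ End.maxGenEigenspace G z, cx x v = ((z.re : ℝ) : ℂ) • v := by
    intro z v hv
    by_cases hv0 : v = 0
    · rw [hv0, map_zero, smul_zero]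
    have hz : z ∈ S := by
      rw [hS, mem_union]
      left
      rw [hZ, Set.Finite.mem_toFinset]
      have h1 : G.HasUnifEigenvector z ⊤ v := ⟨hv, hv0⟩
      exact h1.hasUnifEigenvalue.lt zero_lt_one
    obtain ⟨r, hr⟩ := hp z hz
    rw [Module.End.maxGenEigenspace_eq_genEigenspace_finrank] at hv
    rw [Module.End.mem_genEigenspace_nat] at hv
    simp only [Module.finrank_fin_fun, LinearMap.mem_ker] at hv
    have h2 : aeval G (p.map (algebraMap ℝ ℂ)) = aeval G (r * (X - C z) ^ n +
        C ((z.re : ℝ) : ℂ)) := by
      congr 1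
      linear_combination hr
    rw [hx, cx_aeval, ← hG, h2, map_add, map_mul, map_pow, map_sub, aeval_X, aeval_C, aeval_C]
    rw [LinearMap.add_apply, Module.End.mul_apply]
    have h3 : ((G - (algebraMap ℂ (End ℂ (Fin n → ℂ))) z) ^ n) v = 0 := by
      rw [Algebra.algebraMap_eq_smul_one]
      exact hv
    rw [h3, map_zero, zero_add]
    simp [Algebra.algebraMap_eq_smul_one]
  refine ⟨x, ?_, ?_, hact⟩
  · have key : ∀ w : Fin n → ℂ, w ∈ (⨆ z : ℂ, End.maxGenEigenspace G z) →
        (fun i => (w i).re) ∈ (⨆ μ : ℝ, End.eigenspace x μ) := by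
      intro w hw
      refine Submodule.iSup_induction (fun z : ℂ => End.maxGenEigenspace G z)
        (motive := fun w => (fun i => (w i).re) ∈ (⨆ μ : ℝ, End.eigenspace x μ)) hw ?_ ?_ ?_
      · intro z v hv
        refine Submodule.mem_iSup_of_mem z.re ?_
        rw [Module.End.mem_eigenspace_iff, ← cx_re, hact z v hv]
        funext i
        simp
      · exact (⨆ μ : ℝ, End.eigenspace x μ).zero_mem
      · intro a b ha hb
        have h := (⨆ μ : ℝ, End.eigenspace x μ).add_mem ha hb
        exact h
    rw [Diag, eq_top_iff]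
    intro v _
    have h1 := key (fun i => ((v i : ℝ) : ℂ)) (by
      rw [Module.End.iSup_maxGenEigenspace_eq_top]
      trivial)
    simpa using h1
  · intro M hM
    exact aeval_stable _ p M hM

/-- as in (LOGT), for derivations -/
theorem claim {W : Type} [AddCommGroup W] [Module ℂ W] (g : End ℂ W) (k : ℕ)
    (t : MultilinearMap ℂ (fun _ : Fin k => W) ℂ) (ht : der g t = 0)
    (z : Fin k → ℂ) (hz : ∑ j, z j ≠ 0) :
    ∀ (N : ℕ) (d : Fin k → ℕ), ∑ j, d j = N → ∀ v : Fin k → W,
      (∀ j, ((g - z j • (1 : End ℂ W)) ^ d j) (v j) = 0) → t v = 0 := by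
  classical
  intro N
  induction N using Nat.strong_induction_on with
  | _ N ih =>
    intro d hd v hv
    have h2 : der g t v = 0 := by rw [ht]; rfl
    rw [der_apply] at h2
    have h1 : ∀ j, t (Function.update v j (g (v j))) = z j * t v := by
      intro j
      have h3 : g (v j) = z j • v j + (g - z j • (1 : End ℂ W)) (v j) := by simp
      rw [h3, MultilinearMap.map_update_add, MultilinearMap.map_update_smul,
        Function.update_eq_self, smul_eq_mul]
      have h4 : t (Function.update v j ((g - z j • (1 : End ℂ W)) (v j))) = 0 := by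
        rcases Nat.eq_zero_or_pos (d j) with h0 | h0
        · have hv0 := hv j
          rw [h0, pow_zero] at hv0
          have hv0' : v j = 0 := hv0
          rw [hv0', map_zero]
          exact t.map_update_zero v j
        · refine ih (∑ i, Function.update d j (d j - 1) i) ?_ _ rfl _ ?_
          · rw [← hd]
            refine Finset.sum_lt_sum (fun i _ => ?_) ⟨j, mem_univ _, ?_⟩
            · by_cases hi : i = j
              · subst hi; simp
              · simp [hi]
            · simp only [Function.update_self]; omega
          · intro i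
            by_cases hi : i = j
            · subst hi
              rw [Function.update_self, Function.update_self, ← Module.End.mul_apply, ← pow_succ,
                Nat.sub_add_cancel h0]
              exact hv i
            · rw [Function.update_of_ne hi, Function.update_of_ne hi]
              exact hv i
      rw [h4, add_zero]
    simp only [h1] at h2
    rw [← Finset.sum_mul] at h2
    rcases mul_eq_zero.1 h2 with h6 | h6
    · exact absurd h6 hz
    · exact h6

/-- the complexification of a real subspace -/
def EC {n : ℕ} (E : Submodule ℝ (Fin n → ℝ)) : Submodule ℂ (Fin n → ℂ) where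
  carrier := {w | (fun i => (w i).re) ∈ E ∧ (fun i => (w i).im) ∈ E}
  add_mem' := by
    rintro a b ⟨ha, ha'⟩ ⟨hb, hb'⟩
    refine ⟨?_, ?_⟩
    · have := E.add_mem ha hb
      exact this
    · have := E.add_mem ha' hb'
      exact this
  zero_mem' := ⟨E.zero_mem, E.zero_mem⟩
  smul_mem' := by
    rintro c w ⟨h1, h2⟩
    refine ⟨?_, ?_⟩
    · have := E.sub_mem (E.smul_mem c.re h1) (E.smul_mem c.im h2)
      convert this using 1
      funext i
      simp
    · have := E.add_mem (E.smul_mem c.re h2) (E.smul_mem c.im h1)
      convert this using 1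
      funext i
      simp

theorem reG : S_reG := by
  intro n y
  obtain ⟨x, hdiag, hstab, hact⟩ := reQ n y
  refine ⟨x, hdiag, ?_, hstab, ?_⟩
  · intro k t ht
    apply kills_of x (cx y) (fun z => z.re) hact t
    intro z v hv hne
    have h : ∀ j, ∃ d : ℕ, ((cx y - z j • (1 : End ℂ (Fin n → ℂ))) ^ d) (v j) = 0 := fun j =>
      (Module.End.mem_maxGenEigenspace (cx y) (z j) (v j)).1 (hv j)
    choose d hd using h
    refine claim (cx y) k (mC t) ((kills_iff y t).1 ht) z ?_ _ d rfl v hd
    intro h0
    apply hne
    have := congrArg Complex.re h0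
    rw [Complex.re_sum] at this
    simpa using this
  · intro E α P hE hsymm hpos hP v hv
    set G := cx y with hG
    have hstabE : ∀ w ∈ EC E, G w ∈ EC E := by
      rintro w ⟨h1, h2⟩
      refine ⟨?_, ?_⟩
      · show (fun i => (cx y w i).re) ∈ E
        rw [cx_re]
        exact hE _ h1
      · show (fun i => (cx y w i).im) ∈ E
        rw [cx_im]
        exact hE _ h2
    -- eigenvalues on `EC`
    have heig : ∀ z : ℂ, ∀ w ∈ EC E, w ≠ 0 → G w = z • w → z.re = α := by
      intro z w hw hw0 hz
      set a : Fin n → ℝ := fun i => (w i).re with ha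
      set b : Fin n → ℝ := fun i => (w i).im with hb
      have hya : y a = z.re • a - z.im • b := by
        rw [ha, ← cx_re]
        funext i
        have : cx y w i = z * w i := by
          have := congrFun hz i
          exact this
        rw [this]
        simp [hb]
      have hyb : y b = z.im • a + z.re • b := by
        rw [hb, ← cx_im]
        funext i
        have : cx y w i = z * w i := by
          have := congrFun hz i
          exact this
        rw [this]
        simp [ha]
        ring
      have hne : a ≠ 0 ∨ b ≠ 0 := by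
        by_contra hc
        push Not at hc
        apply hw0
        funext i
        exact Complex.ext (congrFun hc.1 i) (congrFun hc.2 i)
      have h1 := hP a hw.1 a hw.1
      have h2 := hP b hw.2 b hw.2
      rw [hya] at h1
      rw [hyb] at h2
      simp only [map_sub, map_add, map_smul, LinearMap.sub_apply, LinearMap.add_apply,
        LinearMap.smul_apply, smul_eq_mul] at h1 h2
      rw [hsymm b a] at h1 h2
      have h3 : (z.re - α) * (P a a + P b b) = 0 := by linarith
      have h4 : 0 < P a a + P b b := by
        have ha0 : 0 ≤ P a a := by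
          by_cases h : a = 0
          · rw [h]; simp
          · exact (hpos a hw.1 h).le
        have hb0 : 0 ≤ P b b := by
          by_cases h : b = 0
          · rw [h]; simp
          · exact (hpos b hw.2 h).le
        rcases hne with h | h
        · have := hpos a hw.1 h
          linarith
        · have := hpos b hw.2 h
          linarith
      rcases mul_eq_zero.1 h3 with h5 | h5
      · linarith
      · exact absurd h5 h4.ne'
    have hgen : ∀ z : ℂ, ∀ w ∈ EC E, w ∈ End.maxGenEigenspace G z → cx x w = ((α : ℝ) : ℂ) • w := by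
      intro z w hw hwz
      by_cases hw0 : w = 0
      · rw [hw0, map_zero, smul_zero]
      rw [hact z w hwz]
      obtain ⟨d, hd⟩ := (Module.End.mem_maxGenEigenspace G z w).1 hwz
      classical
      have hex : ∃ d : ℕ, ((G - z • (1 : End ℂ (Fin n → ℂ))) ^ d) w = 0 := ⟨d, hd⟩
      set d0 := Nat.find hex with hd0
      have hs0 : ((G - z • (1 : End ℂ (Fin n → ℂ))) ^ d0) w = 0 := Nat.find_spec hex
      have hd0pos : 0 < d0 := by
        rcases Nat.eq_zero_or_pos d0 with h | h
        · rw [h, pow_zero] at hs0
          exact absurd hs0 hw0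
        · exact h
      have hmin : ((G - z • (1 : End ℂ (Fin n → ℂ))) ^ (d0 - 1)) w ≠ 0 :=
        Nat.find_min hex (by omega)
      have hmemE : ∀ m : ℕ, ((G - z • (1 : End ℂ (Fin n → ℂ))) ^ m) w ∈ EC E := by
        intro m
        induction m with
        | zero => simpa using hw
        | succ m ih =>
          rw [pow_succ', Module.End.mul_apply, LinearMap.sub_apply]
          exact (EC E).sub_mem (hstabE _ ih) ((EC E).smul_mem z ih)
      have hz1 : G (((G - z • (1 : End ℂ (Fin n → ℂ))) ^ (d0 - 1)) w) =
          z • (((G - z • (1 : End ℂ (Fin n → ℂ))) ^ (d0 - 1)) w) := by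
        have h7 : (G - z • (1 : End ℂ (Fin n → ℂ)))
            (((G - z • (1 : End ℂ (Fin n → ℂ))) ^ (d0 - 1)) w) = 0 := by
          rw [← Module.End.mul_apply, ← pow_succ', Nat.sub_add_cancel hd0pos]
          exact hs0
        rw [LinearMap.sub_apply, sub_eq_zero] at h7
        exact h7
      rw [heig z _ (hmemE _) hmin hz1]
    have htop : ∀ w ∈ EC E, cx x w = ((α : ℝ) : ℂ) • w := by
      intro w hw
      have h1 := Submodule.eq_iSup_inf_genEigenspace (p := EC E) (f := G) ⊤ hstabE
        (Module.End.iSup_maxGenEigenspace_eq_top G)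
      rw [h1] at hw
      refine Submodule.iSup_induction _ (motive := fun w => cx x w = ((α : ℝ) : ℂ) • w) hw ?_ ?_ ?_
      · rintro z w ⟨hw1, hw2⟩
        exact hgen z w hw1 hw2
      · simp
      · intro a b ha hb
        rw [map_add, ha, hb, smul_add]
    have h1 : toC v + Complex.I • toC (0 : Fin n → ℝ) ∈ EC E := by
      refine ⟨?_, ?_⟩
      · convert hv using 1
        funext i
        simp [toC]
      · convert E.zero_mem using 1
        funext i
        simp [toC]
    exact (real_smul_split x α v 0 (htop _ h1)).1

end Pool.Agent.W52.K3.ReG
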