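import Pool.Agent.W544.K3.Defs

open Module Finset

namespace Pool.Agent.W52.K3.Tr

open Pool.Agent.W544.K3

theorem tr : S_tr := by
  intro U _ _ _ g hg
  classical
  set n := finrank ℝ U with hn
  let b : Basis (Fin n) ℝ U := Module.finBasis ℝ U
  set A : Matrix (Fin n) (Fin n) ℝ := LinearMap.toMatrix b b g with hA
  set AC : Matrix (Fin n) (Fin n) ℂ := A.map (fun a : ℝ => (a : ℂ)) with hAC
  have htr : ((LinearMap.trace ℝ U g : ℝ) : ℂ) = AC.trace := by
    rw [LinearMap.trace_eq_matrix_trace ℝ b g]
    simp [hAC, Matrix.trace, hA]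
  have hroot : ∀ z ∈ AC.charpoly.roots, ‖z‖ = 1 := by
    intro z hz
    have h1 : AC.charpoly.eval z = 0 := by
      have := Polynomial.isRoot_of_mem_roots hz
      exact this
    rw [Matrix.eval_charpoly] at h1
    obtain ⟨w, hw0, hw⟩ := Matrix.exists_mulVec_eq_zero_iff.2 h1
    have hw' : ∀ i, z * w i = ∑ j, ((A i j : ℝ) : ℂ) * w j := by
      intro i
      have h2 := congrFun hw i
      rw [Matrix.sub_mulVec] at h2
      simp only [Pi.sub_apply, Pi.zero_apply] at h2
      rw [sub_eq_zero] at h2
      have h3 : (Matrix.scalar (Fin n) z).mulVec w i = z * w i := by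
        simp [Matrix.scalar_apply, Matrix.mulVec_diagonal]
      rw [h3] at h2
      rw [h2]
      simp [hAC, Matrix.mulVec, dotProduct]
    -- real and imaginary parts
    let u : U := ∑ j, (w j).re • b j
    let v : U := ∑ j, (w j).im • b j
    have hgb : ∀ j, g (b j) = ∑ i, A i j • b i := by
      intro j
      rw [hA]
      have := LinearMap.toMatrix_apply b b g
      simp only [this]
      exact (b.sum_repr (g (b j))).symm
    have hgs : ∀ c : Fin n → ℝ, g (∑ j, c j • b j) = ∑ i, (∑ j, A i j * c j) • b i := by
      intro c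
      rw [map_sum]
      simp only [map_smul, hgb, Finset.smul_sum, Finset.sum_smul, smul_smul]
      rw [Finset.sum_comm]
      refine Finset.sum_congr rfl fun i _ => Finset.sum_congr rfl fun j _ => ?_
      rw [mul_comm]
    have hre : ∀ i, z.re * (w i).re - z.im * (w i).im = ∑ j, A i j * (w j).re := by
      intro i
      have h2 := congrArg Complex.re (hw' i)
      rw [Complex.mul_re, Complex.re_sum] at h2
      rw [h2]
      refine Finset.sum_congr rfl fun j _ => ?_
      simp
    have him : ∀ i, z.re * (w i).im + z.im * (w i).re = ∑ j, A i j * (w j).im := by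
      intro i
      have h2 := congrArg Complex.im (hw' i)
      rw [Complex.mul_im, Complex.im_sum] at h2
      rw [h2]
      refine Finset.sum_congr rfl fun j _ => ?_
      simp
    have hgu : g u = z.re • u - z.im • v := by
      rw [hgs]
      simp only [u, v, Finset.smul_sum, ← Finset.sum_sub_distrib, smul_smul, ← sub_smul]
      refine Finset.sum_congr rfl fun i _ => ?_
      rw [hre]
    have hgv : g v = z.im • u + z.re • v := by
      rw [hgs]
      simp only [u, v, Finset.smul_sum, ← Finset.sum_add_distrib, smul_smul, ← add_smul]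
      refine Finset.sum_congr rfl fun i _ => ?_
      rw [← him]
      ring_nf
    have hne : u ≠ 0 ∨ v ≠ 0 := by
      by_contra hc
      push Not at hc
      obtain ⟨hu, hv⟩ := hc
      apply hw0
      funext i
      have h5 := (Fintype.linearIndependent_iff.1 b.linearIndependent) (fun j => (w j).re) hu i
      have h6 := (Fintype.linearIndependent_iff.1 b.linearIndependent) (fun j => (w j).im) hv i
      exact Complex.ext h5 h6
    have h7 := hg z.re z.im ⟨u, v, hne, hgu, hgv⟩
    have h8 : ‖z‖ ^ 2 = 1 := by
      rw [← Complex.normSq_eq_norm_sq, Complex.normSq_apply]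
      nlinarith [h7]
    nlinarith [norm_nonneg z, sq_nonneg (‖z‖ - 1)]
  have hsum : ∀ s : Multiset ℂ, (∀ z ∈ s, ‖z‖ = 1) → ‖s.sum‖ ≤ (Multiset.card s : ℝ) := by
    intro s
    induction s using Multiset.induction_on with
    | empty => intro _; simp
    | cons a s ih =>
      intro h
      rw [Multiset.sum_cons, Multiset.card_cons]
      have h1 := h a (Multiset.mem_cons_self a s)
      have h2 := ih fun z hz => h z (Multiset.mem_cons_of_mem hz)
      have h3 := norm_add_le a s.sum
      push_cast
      linarith
  have hcard : Multiset.card AC.charpoly.roots ≤ n := by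
    have h1 := Polynomial.card_roots' AC.charpoly
    rw [Matrix.charpoly_natDegree_eq_dim, Fintype.card_fin] at h1
    exact h1
  have h9 : ‖((LinearMap.trace ℝ U g : ℝ) : ℂ)‖ ≤ (n : ℝ) := by
    rw [htr, Matrix.trace_eq_sum_roots_charpoly]
    exact (hsum _ hroot).trans (by exact_mod_cast hcard)
  rw [Complex.norm_real, Real.norm_eq_abs] at h9
  exact h9

end Pool.Agent.W52.K3.Tr
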